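import Pool.Agent.H31.Snf4

open Pool.Agent.H31.Snf

universe u

theorem Pool.Agent.Results.MP_e5b41c_gt.Main.result
    {X : Type u} [TopologicalSpace X] [T35Space X] [CompactlyCoherentSpace X] (hd : RegGdDiag X) :
    (SnfCountable (Fn X 2) (TopologicalSpace.induced Subtype.val (topF X)) →
      SnfCountable (Fn X 3) (TopologicalSpace.induced Subtype.val (topF X))) ∧
    (SnfCountable (An X 2) (TopologicalSpace.induced Subtype.val (topA X)) →
      SnfCountable (An X 3) (TopologicalSpace.induced Subtype.val (topA X))) :=
  ⟨snfF hd, fun h => snfA hd h 3⟩
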